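import Pool.Agent.H341R2.EdgeDivisor
import Pool.Agent.H341R2.SchemeFacts

set_option autoImplicit false

namespace Pool.Agent.Results.MP_039d94_nt.EdgeDivisor

open Complex Polynomial AlgebraicGeometry Pool.Agent.H341R2

/-- Let `X` be a scheme over `ℤ` (a projective model of a smooth projective variety over `ℚ`),
`b` a bound for the number of Frobenius eigenvalues of weight `i` at the primes `p ∉ S`. If
`L(Hⁱ(X), s)` extends meromorphically across every point of the line `Re s = i/2 + 1`, then only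
finitely many points `i/2 + 1 + iτ`, `τ ∈ T`, of the line are zeros or poles, the sum of the
squares of their orders `m τ` is at most `b²`, and `|∑_{τ ∈ T} m(τ) e^{iτx}| ≤ b` for all real `x`
(for `x = 0`: the number of zeros minus the number of poles is at most `b` in absolute value). -/
theorem result (X : Scheme.{0}) (i b : ℕ) (S : Finset Nat.Primes)
    (hb : ∀ p ∉ S, weightNumber X p i ≤ b)
    (B : Nat.Primes → ℂ[X])
    (hB : ∀ p ∈ S, ∀ z : ℂ, ‖z‖ = (p : ℝ) ^ (-((i : ℝ) / 2 + 1)) → (B p).eval z ≠ 0)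
    (Λ : ℂ → ℂ) (hmer : ∀ s : ℂ, s.re = (i : ℝ) / 2 + 1 → MeromorphicAt Λ s)
    (hΛ : ∀ s : ℂ, (i : ℝ) / 2 + 1 < s.re → Λ s = schemeL X i S B s) :
    ∃ (T : Finset ℝ) (m : ℝ → ℤ),
      (∀ τ : ℝ, meromorphicOrderAt Λ ((i : ℂ) / 2 + 1 + τ * I) = m τ) ∧
      (∀ τ : ℝ, τ ∈ T ↔ m τ ≠ 0) ∧
      ∑ τ ∈ T, (m τ) ^ 2 ≤ (b : ℤ) ^ 2 ∧
      ∀ x : ℝ, ‖∑ τ ∈ T, (m τ : ℂ) * Complex.exp (((τ * x : ℝ) : ℂ) * I)‖ ≤ b := by
  have hord : ∀ τ : ℝ, ∃ m : ℤ, meromorphicOrderAt Λ ((i : ℂ) / 2 + 1 + τ * I) = m ∧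
      ∃ C' : ℝ, ∀ᶠ ε : ℝ in nhdsWithin 0 (Set.Ioi 0),
        |(E ε fun p => (tS X i S p * ((p : ℕ) : ℂ) ^ (-(τ * I))).re) + m * lam ε| ≤ C' := by
    intro τ
    refine scheme_order hb B τ (fun p hp => hB p hp _ ?_) (hmer _ (by simp))
      (Filter.Eventually.of_forall fun s hs => hΛ s hs)
    rw [norm_prime_cpow]
    congr 1
    simp
  choose m hm1 hm2 using hord
  obtain ⟨T, hT1, hT2⟩ := edge_divisor (tS X i S) b (norm_tS_le hb) m hm2
  refine ⟨T, m, hm1, hT1, ?_, hT2⟩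
  have h1 := bessel T (tS X i S) (fun τ p => ((p : ℕ) : ℂ) ^ ((τ : ℂ) * I))
    (fun τ => (m τ : ℝ)) b (norm_tS_le hb)
    (fun τ p => (norm_prime_cpow_I p τ).le) (fun k _ l _ hkl => vert_orth hkl) (by
      intro τ _
      obtain ⟨C, hC⟩ := hm2 τ
      refine ⟨|(m τ : ℝ)| * C, ?_⟩
      filter_upwards [hC] with ε hε
      simp only [conj_prime_cpow_I]
      have h1 : (m τ : ℝ) * (E ε fun p => (tS X i S p * ((p : ℕ) : ℂ) ^ (-(τ * I))).re) +
          (m τ : ℝ) ^ 2 * lam ε =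
          m τ * ((E ε fun p => (tS X i S p * ((p : ℕ) : ℂ) ^ (-(τ * I))).re) + m τ * lam ε) := by
        ring
      have h2 := le_abs_self ((m τ : ℝ) *
        ((E ε fun p => (tS X i S p * ((p : ℕ) : ℂ) ^ (-(τ * I))).re) + m τ * lam ε))
      rw [abs_mul] at h2
      have h3 := mul_le_mul_of_nonneg_left hε (abs_nonneg (m τ : ℝ))
      linarith)
  exact_mod_cast h1

end Pool.Agent.Results.MP_039d94_nt.EdgeDivisor
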