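import Mathlib
import Pool.Agent.H302R9.Full

/-!
# Holomorphy at a point from potential automorphy, for Galois groups with alternating factors

`Pool.Agent.H302R3.IsSolHeilbronn θ` says that `θ` is a class function on a group whose
restriction to every SOLVABLE subgroup `H` has a nonnegative integer multiplicity against every
linear character of `H`.

Let `G` be a finite group with a chain of normal subgroups `1 = N 0 ≤ N 1 ≤ … ≤ N l = G` in which
every factor `N (j+1) / N j` is abelian or a product of alternating groups `A_n` such that, with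
`r = θ 1`, one has `r < 2 ^ ⌊n / 4⌋` and `r < (2^k - 1) * ⌊n / 2^k⌋` for some `k ≥ 2`.  Then `θ` has
a nonnegative integer multiplicity against every linear character of EVERY subgroup of `G`, and it
is constant on the cosets of some term of the derived series of `G`.
-/

set_option autoImplicit false

universe u

theorem Pool.Agent.Results.MP_039d94_nt.PotentialResidual.result
    (G : Type u) [Group G] [Finite G] (θ : G → ℂ)
    (hθ : Pool.Agent.H302R3.IsSolHeilbronn θ) (r : ℕ)
    (hr : θ 1 = r) (l : ℕ) (N : ℕ → Subgroup G) (h0 : N 0 = ⊥) (hl : N l = ⊤)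
    (hnorm : ∀ j ≤ l, (N j).Normal) (hle : ∀ j < l, N j ≤ N (j + 1))
    (hlayer : ∀ j < l, (∀ a ∈ N (j + 1), ∀ b ∈ N (j + 1), a * b * a⁻¹ * b⁻¹ ∈ N j) ∨
      ∃ (m : ℕ) (n k : Fin m → ℕ)
        (f : N (j + 1) →* (∀ i : Fin m, alternatingGroup (Fin (n i)))),
        (∀ i, r < 2 ^ (n i / 4) ∧ 2 ≤ k i ∧ r < (2 ^ k i - 1) * (n i / 2 ^ k i)) ∧
        Function.Surjective f ∧ f.ker = (N j).subgroupOf (N (j + 1))) :
    (∀ (H : Subgroup G) (χ : H →* ℂˣ), ∃ m : ℕ,
      ∑ᶠ h : H, θ h * (((χ h)⁻¹ : ℂˣ) : ℂ) = (m : ℂ) * (Nat.card H : ℂ)) ∧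
    ∃ i, ∀ x ∈ derivedSeries G i, ∀ g, θ (x * g) = θ g := by
  have h := Pool.Agent.H302R9.main_full θ hθ r hr l N h0 hl hnorm hle hlayer
  exact ⟨h.1.mult, h.2⟩
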