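import Pool.Agent.H341R2.SurfaceFacts

set_option autoImplicit false

namespace Pool.Agent.Results.MP_039d94_nt.ProductSurfaces

open Complex Filter Topology ComplexConjugate Polynomial Pool.Agent.H341R2

theorem E_finsupp (S : Finset Nat.Primes) (r : Nat.Primes → ℝ) (hr : ∀ p, p ∉ S → r p = 0)
    (b : ℝ) (hb : ∀ p, |r p| ≤ b) {ε : ℝ} (hε : 0 < ε) : |E ε r| ≤ S.card * b := by
  rw [E, tsum_eq_sum (s := S) fun p hp => by rw [hr p hp, zero_mul]]
  refine (Finset.abs_sum_le_sum_abs _ _).trans ?_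
  rw [← nsmul_eq_mul]
  refine Finset.sum_le_card_nsmul _ _ _ fun p _ => ?_
  have hp1 : (1 : ℝ) ≤ p := by exact_mod_cast p.2.one_lt.le
  have h1 : (p : ℝ) ^ (-(1 + ε)) ≤ 1 := Real.rpow_le_one_of_one_le_of_nonpos hp1 (by linarith)
  rw [abs_mul, abs_of_nonneg (w_nonneg ε p)]
  calc |r p| * (p : ℝ) ^ (-(1 + ε)) ≤ |r p| * 1 :=
        mul_le_mul_of_nonneg_left h1 (abs_nonneg _)
    _ ≤ b := by rw [mul_one]; exact hb p

/-- the contribution of the two algebraic classes -/
theorem tate_part (τ : ℝ) : ∃ C : ℝ, ∀ᶠ ε : ℝ in 𝓝[>] 0,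
    |(E ε fun p => (vv (1, 0) p * conj (vv (1, τ) p)).re) -
      (if τ = 0 then 1 else 0) * lam ε| ≤ C := by
  by_cases hτ : τ = 0
  · subst hτ
    have hbd : ∀ p : Nat.Primes, |(vv (1, 0) p * conj (vv (1, 0) p)).re| ≤ 1 := fun p => by
      refine (Complex.abs_re_le_norm _).trans ?_
      rw [norm_mul, Complex.norm_conj]
      exact mul_le_one₀ (norm_vv_le _ p) (norm_nonneg _) (norm_vv_le _ p)
    refine ⟨2, ?_⟩
    filter_upwards [self_mem_nhdsWithin] with ε hε
    have hε : (0 : ℝ) < ε := hε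
    have hlam : lam ε = E ε fun _ => 1 := by
      rw [lam, E]
      simp
    have h1 : (E ε fun p => (vv (1, 0) p * conj (vv (1, 0) p)).re) -
        (if (0 : ℝ) = 0 then 1 else 0) * lam ε =
        E ε fun p => (vv (1, 0) p * conj (vv (1, 0) p)).re + (-1) * 1 := by
      rw [E_add hε hbd (B' := 1) (by simp), if_pos rfl, one_mul, hlam,
        E_const_mul (-1) (fun _ => (1 : ℝ))]
      ring
    rw [h1]
    obtain ⟨two, htwo⟩ : ∃ q : Nat.Primes, (q : ℕ) = 2 := ⟨⟨2, Nat.prime_two⟩, rfl⟩
    have h2 := E_finsupp {two}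
      (fun p => (vv (1, 0) p * conj (vv (1, 0) p)).re + (-1) * 1)
      (by
        intro p hp
        have hp2 : (p : ℕ) ≠ 2 := fun h => hp (by
          rw [Finset.mem_singleton]
          exact Subtype.ext (h.trans htwo.symm))
        rw [vv_one_zero hp2]
        simp) 2
      (by
        intro p
        refine (abs_add_le _ _).trans ?_
        have := hbd p
        have h3 : |(-1 : ℝ) * 1| = 1 := by norm_num
        rw [h3]
        linarith) hε
    rw [Finset.card_singleton, Nat.cast_one, one_mul] at h2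
    exact h2
  · obtain ⟨C, hC⟩ := vv_orth (k := (1, 0)) (l := (1, τ)) squarefree_one squarefree_one
      (fun h => hτ (Prod.ext_iff.1 h).2.symm)
    refine ⟨C, ?_⟩
    filter_upwards [hC] with ε h
    rwa [if_neg hτ, zero_mul, sub_zero]

/-- `C : y² = f(x)`, `C'_D : D y² = g(x)`. Let `K` be a finite set of pairs `(D, τ)`, `D` a
squarefree integer and `τ` real, such that `L(H²(C × C'_D), s)` has a meromorphic extension to a
neighbourhood of `2 + iτ`. The sum over `K` of `(ord_{2 + iτ} + 2 [τ = 0])²` is at most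
`((5 deg f + 1) (5 deg g + 1))²`. -/
theorem result (f g : ℤ[X]) (hf : (f.map (Int.castRingHom ℚ)).Separable)
    (hg : (g.map (Int.castRingHom ℚ)).Separable) (hdf : 3 ≤ f.natDegree) (hdg : 3 ≤ g.natDegree)
    (B : ℤ → Nat.Primes → ℂ[X])
    (hB : ∀ D p, ¬ (GoodPrime f 1 p ∧ GoodPrime g D p) → ∀ s : ℂ, s.re = 2 →
      (B D p).eval (((p : ℕ) : ℂ) ^ (-s)) ≠ 0)
    (K : Finset (ℤ × ℝ)) (hK : ∀ k ∈ K, Squarefree k.1)
    (Λ : ℤ × ℝ → ℂ → ℂ)
    (hΛ : ∀ k ∈ K, MeromorphicAt (Λ k) (2 + k.2 * I) ∧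
      ∀ᶠ s in 𝓝 (2 + k.2 * I), 2 < s.re → Λ k s = surfaceL f g k.1 (B k.1) s) :
    ∃ m : ℤ × ℝ → ℤ,
      (∀ k ∈ K, meromorphicOrderAt (Λ k) (2 + k.2 * I) = m k) ∧
      ∑ k ∈ K, (m k + if k.2 = 0 then (2 : ℤ) else 0) ^ 2 ≤
        ((((5 * f.natDegree + 1) * (5 * g.natDegree + 1)) ^ 2 : ℕ) : ℤ) := by
  classical
  have h1 : ∀ k : ℤ × ℝ, ∃ m : ℤ, k ∈ K →
      meromorphicOrderAt (Λ k) (2 + k.2 * I) = m ∧
      ∃ C' : ℝ, ∀ᶠ ε : ℝ in 𝓝[>] 0,
        |(E ε fun p => (ss f g k.1 k.2 p).re) + m * lam ε| ≤ C' := by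
    intro k
    by_cases hk : k ∈ K
    · obtain ⟨m, h2, h3⟩ := surface_order hf hg (by omega) (by omega) (hK k hk).ne_zero (B k.1)
        (fun p hp s hs => hB k.1 p hp s hs) k.2 (Λ k) (hΛ k hk).1 (hΛ k hk).2
      exact ⟨m, fun _ => ⟨h2, h3⟩⟩
    · exact ⟨0, fun h => absurd h hk⟩
  choose m hm using h1
  refine ⟨m, fun k hk => (hm k hk).1, ?_⟩
  have hKT : 0 ≤ KT f g := KT_nonneg f g
  have h2 := twist_bessel (tt f g) (KT f g) (fun p => norm_tt_le (by omega) (by omega) p)
    K hK (fun k => (m k : ℝ) + if k.2 = 0 then 2 else 0)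
    (by
      intro k hk
      obtain ⟨C, hC⟩ := (hm k hk).2
      obtain ⟨C₁, hC₁⟩ := tate_part k.2
      have hfin : {p : Nat.Primes | ¬ (GoodPrime f 1 p ∧ GoodPrime g k.1 p)}.Finite := by
        refine ((finite_bad hf one_ne_zero).union
          (finite_bad hg (hK k hk).ne_zero)).subset fun p hp => ?_
        rw [Set.mem_ofPred_eq, not_and_or] at hp
        exact hp
      set μ : ℝ := (m k : ℝ) + if k.2 = 0 then 2 else 0 with hμ
      have hb1 : ∀ p, |(tt f g p * conj (vv k p)).re| ≤ KT f g := fun p => by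
        refine (Complex.abs_re_le_norm _).trans ?_
        rw [norm_mul, Complex.norm_conj]
        exact (mul_le_of_le_one_right (norm_nonneg _) (norm_vv_le _ p)).trans
          (norm_tt_le (by omega) (by omega) p)
      have hb2 : ∀ p : Nat.Primes, |(vv (1, 0) p * conj (vv (1, k.2) p)).re| ≤ 1 := fun p => by
        refine (Complex.abs_re_le_norm _).trans ?_
        rw [norm_mul, Complex.norm_conj]
        exact mul_le_one₀ (norm_vv_le _ p) (norm_nonneg _) (norm_vv_le _ p)
      have hb3 : ∀ p, |(ss f g k.1 k.2 p).re| ≤ 2 + KT f g := fun p =>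
        (Complex.abs_re_le_norm _).trans (norm_ss_le (by omega) (by omega) _ _ p)
      set r : Nat.Primes → ℝ := fun p => (ss f g k.1 k.2 p).re +
        ((-1) * (tt f g p * conj (vv k p)).re +
          (-2) * (vv (1, 0) p * conj (vv (1, k.2) p)).re) with hr
      have hr0 : ∀ p, p ∉ hfin.toFinset → r p = 0 := by
        intro p hp
        rw [Set.Finite.mem_toFinset, Set.mem_ofPred_eq, not_not] at hp
        rw [hr]
        simp only
        rw [ss_eq k.2 hp.1 hp.2]
        simp only [Prod.mk.eta, Complex.add_re]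
        rw [Complex.mul_re 2]
        simp
        ring
      have hrb : ∀ p, |r p| ≤ (2 + KT f g) + (KT f g + 2) := by
        intro p
        rw [hr]
        refine (abs_add_le _ _).trans (add_le_add (hb3 p) ((abs_add_le _ _).trans
          (add_le_add ?_ ?_)))
        · rw [abs_mul, abs_neg, abs_one, one_mul]
          exact hb1 p
        · rw [abs_mul, abs_neg, abs_two]
          linarith [hb2 p]
      refine ⟨|μ| * (C + 2 * C₁ + hfin.toFinset.card * ((2 + KT f g) + (KT f g + 2))), ?_⟩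
      filter_upwards [hC, hC₁, self_mem_nhdsWithin] with ε e1 e2 e3
      have hε : (0 : ℝ) < ε := e3
      have hE := E_finsupp hfin.toFinset r hr0 _ hrb hε
      have hsplit : E ε r = (E ε fun p => (ss f g k.1 k.2 p).re) +
          ((-1) * (E ε fun p => (tt f g p * conj (vv k p)).re) +
          (-2) * (E ε fun p => (vv (1, 0) p * conj (vv (1, k.2) p)).re)) := by
        rw [hr, E_add hε hb3 (B' := KT f g + 2), E_add hε (B := KT f g) (B' := 2),
          E_const_mul, E_const_mul]
        · intro p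
          rw [abs_mul, abs_neg, abs_one, one_mul]
          exact hb1 p
        · intro p
          rw [abs_mul, abs_neg, abs_two]
          linarith [hb2 p]
        · intro p
          refine (abs_add_le _ _).trans (add_le_add ?_ ?_)
          · rw [abs_mul, abs_neg, abs_one, one_mul]
            exact hb1 p
          · rw [abs_mul, abs_neg, abs_two]
            linarith [hb2 p]
      set x := E ε fun p => (ss f g k.1 k.2 p).re
      set y := E ε fun p => (tt f g p * conj (vv k p)).re
      set z := E ε fun p => (vv (1, 0) p * conj (vv (1, k.2) p)).re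
      have h3 : |y + μ * lam ε| ≤
          C + 2 * C₁ + hfin.toFinset.card * ((2 + KT f g) + (KT f g + 2)) := by
        have h4 : y + μ * lam ε = (x + m k * lam ε) +
            (-(2 * (z - (if k.2 = 0 then 1 else 0) * lam ε))) + (-(E ε r)) := by
          rw [hsplit, hμ]
          split_ifs <;> ring
        rw [h4]
        refine (abs_add_le _ _).trans (add_le_add ((abs_add_le _ _).trans (add_le_add e1 ?_)) ?_)
        · rw [abs_neg, abs_mul, abs_two]
          linarith
        · rw [abs_neg]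
          exact hE
      have h5 : μ * y = μ * (y + μ * lam ε) - μ ^ 2 * lam ε := by ring
      rw [h5]
      have h6 : μ * (y + μ * lam ε) ≤
          |μ| * (C + 2 * C₁ + hfin.toFinset.card * ((2 + KT f g) + (KT f g + 2))) := by
        refine (le_abs_self _).trans ?_
        rw [abs_mul]
        exact mul_le_mul_of_nonneg_left h3 (abs_nonneg _)
      linarith)
  have h3 : (KT f g) ^ 2 = ((((5 * f.natDegree + 1) * (5 * g.natDegree + 1)) ^ 2 : ℕ) : ℝ) := by
    rw [KT]
    push_cast
    ring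
  rw [h3] at h2
  have h4 : ∀ k : ℤ × ℝ, ((m k : ℝ) + if k.2 = 0 then 2 else 0) =
      ((m k + if k.2 = 0 then 2 else 0 : ℤ) : ℝ) := by
    intro k
    push_cast
    rfl
  simp only [h4] at h2
  exact_mod_cast h2

end Pool.Agent.Results.MP_039d94_nt.ProductSurfaces
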