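import Pool.Agent.H341R2.CurveOrder

set_option autoImplicit false

namespace Pool.Agent.Results.MP_039d94_nt.TwistFamilies

open Complex Filter Topology ComplexConjugate Polynomial Pool.Agent.H341R2

/-- For odd `i`, every squarefree `f ∈ ℤ[x]` of degree `d ≥ 3` and every `n`: let `K` be a finite
set of pairs `(D, τ)`, `D` a squarefree integer and `τ` real, such that `L(Hⁱ((C_D)ⁿ), s)`,
`C_D : D y² = f(x)`, has a meromorphic extension `Λ` to a neighbourhood of `i/2 + 1 + iτ`. Then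
the sum over `K` of the squares of the orders of these extensions is at most `(5d+3)^{2n}`. -/
theorem result (f : ℤ[X]) (hf : (f.map (Int.castRingHom ℚ)).Separable) (hd : 3 ≤ f.natDegree)
    (n i : ℕ) (hi : Odd i) (B : ℤ → Nat.Primes → ℂ[X])
    (hB : ∀ D p, ¬ GoodPrime f D p → ∀ s : ℂ, s.re = (i : ℝ) / 2 + 1 →
      (B D p).eval (((p : ℕ) : ℂ) ^ (-s)) ≠ 0)
    (K : Finset (ℤ × ℝ)) (hK : ∀ k ∈ K, Squarefree k.1)
    (Λ : ℤ × ℝ → ℂ → ℂ)
    (hΛ : ∀ k ∈ K, MeromorphicAt (Λ k) ((i : ℂ) / 2 + 1 + k.2 * I) ∧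
      ∀ᶠ s in 𝓝 ((i : ℂ) / 2 + 1 + k.2 * I), (i : ℝ) / 2 + 1 < s.re →
        Λ k s = LFun n i f k.1 (B k.1) s) :
    ∃ m : ℤ × ℝ → ℤ,
      (∀ k ∈ K, meromorphicOrderAt (Λ k) ((i : ℂ) / 2 + 1 + k.2 * I) = m k) ∧
      ∑ k ∈ K, (m k) ^ 2 ≤ ((5 * f.natDegree + 3) ^ (2 * n) : ℕ) := by
  classical
  have h1 : ∀ k : ℤ × ℝ, ∃ m : ℤ, k ∈ K →
      meromorphicOrderAt (Λ k) ((i : ℂ) / 2 + 1 + k.2 * I) = m ∧
      ∃ C' : ℝ, ∀ᶠ ε : ℝ in 𝓝[>] 0,
        |(E ε fun p => (aa n i f k.1 k.2 p).re) + m * lam ε| ≤ C' := by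
    intro k
    by_cases hk : k ∈ K
    · obtain ⟨m, h2, h3⟩ := curve_order hf (by omega) n i (hK k hk).ne_zero (B k.1)
        (fun p hp s hs => hB k.1 p hp s hs) k.2 (Λ k) (hΛ k hk).1 (hΛ k hk).2
      exact ⟨m, fun _ => ⟨h2, h3⟩⟩
    · exact ⟨0, fun h => absurd h hk⟩
  choose m hm using h1
  refine ⟨m, fun k hk => (hm k hk).1, ?_⟩
  have h2 := twist_bessel (aa n i f 1 0) (KK f n) (fun p => norm_aa_le (by omega) n i 1 0 p)
    K hK (fun k => m k)
    (by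
      intro k hk
      obtain ⟨C, hC⟩ := (hm k hk).2
      refine ⟨|(m k : ℝ)| * C, ?_⟩
      filter_upwards [hC] with ε hε
      have h2 : (fun p => (aa n i f 1 0 p * conj (vv k p)).re) =
          fun p => (aa n i f k.1 k.2 p).re := by
        funext p
        rw [aa_twist n i hi k.2 p]
      rw [h2]
      set e := E ε fun p => (aa n i f k.1 k.2 p).re
      have h3 : (m k : ℝ) * e = m k * (e + m k * lam ε) - (m k) ^ 2 * lam ε := by ring
      rw [h3]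
      have h4 : (m k : ℝ) * (e + m k * lam ε) ≤ |(m k : ℝ)| * C := by
        refine (le_abs_self _).trans ?_
        rw [abs_mul]
        exact mul_le_mul_of_nonneg_left hε (abs_nonneg _)
      linarith)
  have h3 : (KK f n) ^ 2 = (((5 * f.natDegree + 3) ^ (2 * n) : ℕ) : ℝ) := by
    rw [KK]
    push_cast
    rw [← pow_mul, mul_comm n 2]
  rw [h3] at h2
  exact_mod_cast h2

end Pool.Agent.Results.MP_039d94_nt.TwistFamilies
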